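import Mathlib

/-!
# Arranging a finite set in a row without conflicts between neighbours

If `R` is a symmetric and irreflexive conflict relation on a finite set of size `N` and
`c x + c y + 1 ≤ N` for all conflicting `x`, `y` (`c x` is the number of conflicts of `x`), then the
set can be put in a row so that consecutive elements do not conflict (Ore's condition for the
complement). Proof: reversal of a segment in a cyclic arrangement with one dummy element.
-/

set_option autoImplicit false

namespace Q223.ML

section lists

variable {β : Type*} (R : β → β → Prop)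

open Classical in
/-- `1` if both are present and conflict, otherwise `0`. -/
noncomputable def bd : Option β → Option β → ℕ
  | some x, some y => if R x y then 1 else 0
  | _, _ => 0

/-- The number of conflicting neighbours. -/
noncomputable def nb : List β → ℕ
  | [] => 0
  | a :: l => bd R (some a) l.head? + nb l

@[simp] theorem bd_none_left (y : Option β) : bd R none y = 0 := by
  cases y <;> rfl

@[simp] theorem bd_none_right (y : Option β) : bd R y none = 0 := by
  cases y <;> rfl

theorem bd_some (x y : β) [Decidable (R x y)] : bd R (some x) (some y) = if R x y then 1 else 0 := by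
  simp only [bd]
  split_ifs <;> rfl

theorem bd_comm (hR : ∀ x y, R x y → R y x) (x y : Option β) : bd R x y = bd R y x := by
  classical
  cases x with
  | none => simp
  | some x =>
    cases y with
    | none => simp
    | some y =>
      rw [bd_some, bd_some]
      by_cases h : R x y
      · simp [h, hR _ _ h]
      · have : ¬ R y x := fun h' => h (hR _ _ h')
        simp [h, this]

theorem nb_append (l₁ l₂ : List β) :
    nb R (l₁ ++ l₂) = nb R l₁ + bd R l₁.getLast? l₂.head? + nb R l₂ := by
  induction l₁ with
  | nil => simp [nb]
  | cons a l ih =>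
    rw [List.cons_append, nb, nb, ih]
    cases l with
    | nil => simp [nb]
    | cons b l' =>
      have h1 : ((b :: l') ++ l₂).head? = (b :: l').head? := by simp
      have h2 : (a :: b :: l').getLast? = (b :: l').getLast? := by simp
      rw [h1, h2]
      ring

theorem nb_reverse (hR : ∀ x y, R x y → R y x) (l : List β) : nb R l.reverse = nb R l := by
  induction l with
  | nil => simp
  | cons a l ih =>
    rw [List.reverse_cons, nb_append, ih, nb]
    have h1 : l.reverse.getLast? = l.head? := by simp
    rw [h1, bd_comm R hR]
    simp [nb]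
    ring

/-- The number of conflicting neighbours in the cyclic arrangement. -/
noncomputable def cyc (l : List β) : ℕ := nb R l + bd R l.getLast? l.head?

theorem cyc_append (l₁ l₂ : List β) (h₁ : l₁ ≠ []) (h₂ : l₂ ≠ []) :
    cyc R (l₁ ++ l₂) = nb R l₁ + bd R l₁.getLast? l₂.head? + nb R l₂
      + bd R l₂.getLast? l₁.head? := by
  rw [cyc, nb_append, List.getLast?_append_of_ne_nil _ h₂, List.head?_append_of_ne_nil _ h₁]

theorem cyc_rotate (l₁ l₂ : List β) : cyc R (l₁ ++ l₂) = cyc R (l₂ ++ l₁) := by
  by_cases h₁ : l₁ = []
  · simp [h₁]
  by_cases h₂ : l₂ = []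
  · simp [h₂]
  rw [cyc_append R _ _ h₁ h₂, cyc_append R _ _ h₂ h₁]
  ring

/-- Reversing the first part of a cyclic arrangement. -/
theorem cyc_reverse_lt (hR : ∀ x y, R x y → R y x) (l₁ l₂ : List β) (h₁ : l₁ ≠ []) (h₂ : l₂ ≠ [])
    (hbad : bd R l₂.getLast? l₁.head? ≠ 0) (hg1 : bd R l₂.getLast? l₁.getLast? = 0)
    (hg2 : bd R l₁.head? l₂.head? = 0) :
    cyc R (l₁.reverse ++ l₂) < cyc R (l₁ ++ l₂) := by
  have h₁' : l₁.reverse ≠ [] := by simpa using h₁
  rw [cyc_append R _ _ h₁' h₂, cyc_append R _ _ h₁ h₂, nb_reverse R hR]
  have e1 : l₁.reverse.getLast? = l₁.head? := by simp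
  have e2 : l₁.reverse.head? = l₁.getLast? := by simp
  rw [e1, e2, hg1, hg2]
  omega

/-- A nonzero number of conflicts gives a place with a conflict. -/
theorem exists_split_of_nb_ne_zero (l : List β) (h : nb R l ≠ 0) :
    ∃ l₁ l₂, l = l₁ ++ l₂ ∧ l₁ ≠ [] ∧ l₂ ≠ [] ∧ bd R l₁.getLast? l₂.head? ≠ 0 := by
  induction l with
  | nil => simp [nb] at h
  | cons a l ih =>
    by_cases h0 : bd R (some a) l.head? = 0
    · rw [nb, h0, zero_add] at h
      obtain ⟨l₁, l₂, rfl, h1, h2, h3⟩ := ih h
      refine ⟨a :: l₁, l₂, rfl, by simp, h2, ?_⟩
      rw [List.getLast?_cons_of_ne_nil h1]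
      exact h3
    · refine ⟨[a], l, rfl, by simp, ?_, by simpa using h0⟩
      rintro rfl
      simp at h0

end lists

section main

variable {α : Type*} [Fintype α]

open Classical in
/-- The number of conflicts of `x`. -/
noncomputable def cf (R : α → α → Prop) (x : α) : ℕ := (Finset.univ.filter (R x)).card

theorem exists_cyclic [Nonempty α] (R : α → α → Prop) (hR : ∀ x y, R x y → R y x)
    (hore : ∀ x y, R x y → cf R x + cf R y + 1 < Fintype.card α) :
    ∃ l : List α, l.Nodup ∧ (∀ x, x ∈ l) ∧ cyc R l = 0 := by
  classical
  -- choose an arrangement with the least number of conflicts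
  have hex : ∃ m, ∃ l : List α, l.Nodup ∧ (∀ x, x ∈ l) ∧ cyc R l = m :=
    ⟨_, Finset.univ.toList, Finset.nodup_toList _, by simp, rfl⟩
  obtain ⟨l, hnd, hall, hm⟩ := Nat.find_spec hex
  have hmin : ∀ l' : List α, l'.Nodup → (∀ x, x ∈ l') → cyc R l ≤ cyc R l' := by
    intro l' h1 h2
    rw [hm]
    exact Nat.find_min' hex ⟨l', h1, h2, rfl⟩
  refine ⟨l, hnd, hall, ?_⟩
  by_contra hne
  -- rotate so that the conflict is at the end
  obtain ⟨l', hnd', hall', hcyc', hbad⟩ : ∃ l' : List α, l'.Nodup ∧ (∀ x, x ∈ l') ∧
      cyc R l' = cyc R l ∧ bd R l'.getLast? l'.head? ≠ 0 := by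
    by_cases hw : bd R l.getLast? l.head? = 0
    · have hnb : nb R l ≠ 0 := by
        intro h0
        exact hne (by rw [cyc, h0, hw])
      obtain ⟨l₁, l₂, rfl, h1, h2, h3⟩ := exists_split_of_nb_ne_zero R l hnb
      refine ⟨l₂ ++ l₁, ?_, ?_, cyc_rotate R _ _, ?_⟩
      · exact (List.perm_append_comm.nodup_iff).1 hnd
      · intro x
        have := hall x
        simp only [List.mem_append] at this ⊢
        tauto
      · rw [List.getLast?_append_of_ne_nil _ h1, List.head?_append_of_ne_nil _ h2]
        exact h3
    · exact ⟨l, hnd, hall, rfl, hw⟩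
  clear hnd hall
  rw [← hcyc'] at hmin
  have hlen : l'.length = Fintype.card α := by
    rw [← List.toFinset_card_of_nodup hnd']
    congr 1
    ext x
    simpa using hall' x
  -- the end points
  obtain ⟨a, ha⟩ : ∃ a, l'.getLast? = some a := by
    cases h : l'.getLast? with
    | none => rw [h] at hbad; simp at hbad
    | some a => exact ⟨a, rfl⟩
  obtain ⟨b, hb⟩ : ∃ b, l'.head? = some b := by
    cases h : l'.head? with
    | none => rw [h] at hbad; simp at hbad
    | some a => exact ⟨a, rfl⟩
  have hab : R a b := by
    by_contra hn
    rw [ha, hb, bd_some] at hbad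
    simp [hn] at hbad
  have hcard := hore a b hab
  set M := l'.length with hM
  have hMpos : 2 ≤ M := by omega
  -- find the place for the reversal
  have hplace : ∃ k, ∃ hk : k + 1 < M, ¬ R a (l'[k]'(by omega)) ∧ ¬ R b (l'[k + 1]'hk) := by
    by_contra hcon
    push Not at hcon
    let A : Finset (Fin (M - 1)) := Finset.univ.filter fun k => R a (l'[k.1]'(by omega))
    let B : Finset (Fin (M - 1)) := Finset.univ.filter fun k => R b (l'[k.1 + 1]'(by omega))
    have hA : A.card ≤ cf R a := by
      refine Finset.card_le_card_of_injOn (fun k => l'[k.1]'(by omega)) ?_ ?_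
      · intro k hk
        simp only [A, Finset.coe_filter, Finset.mem_univ, true_and, Set.mem_ofPred_eq] at hk ⊢
        exact hk
      · intro i _ j _ hij
        have := (List.Nodup.getElem_inj_iff hnd').1 hij
        exact Fin.ext this
    have hB : B.card ≤ cf R b := by
      refine Finset.card_le_card_of_injOn (fun k => l'[k.1 + 1]'(by omega)) ?_ ?_
      · intro k hk
        simp only [B, Finset.coe_filter, Finset.mem_univ, true_and, Set.mem_ofPred_eq] at hk ⊢
        exact hk
      · intro i _ j _ hij
        have := (List.Nodup.getElem_inj_iff hnd').1 hij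
        exact Fin.ext (by omega)
    have hU : (Finset.univ : Finset (Fin (M - 1))) ⊆ A ∪ B := by
      intro k _
      by_cases h : R a (l'[k.1]'(by omega))
      · exact Finset.mem_union_left _ (by simp [A, h])
      · exact Finset.mem_union_right _ (by
          simp only [B, Finset.mem_filter, Finset.mem_univ, true_and]
          exact hcon k.1 (by omega) h)
    have h1 := Finset.card_le_card hU
    have h2 := Finset.card_union_le A B
    simp only [Finset.card_univ, Fintype.card_fin] at h1
    omega
  obtain ⟨k, hk, hk1, hk2⟩ := hplace
  have hsplit : l' = l'.take (k + 1) ++ l'.drop (k + 1) := (List.take_append_drop _ _).symm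
  have h1 : l'.take (k + 1) ≠ [] := by
    intro h
    have h' := congrArg List.length h
    rw [List.length_take, List.length_nil] at h'
    omega
  have h2 : l'.drop (k + 1) ≠ [] := by
    intro h
    have h' := congrArg List.length h
    rw [List.length_drop, List.length_nil] at h'
    omega
  have e1 : (l'.take (k + 1)).getLast? = some (l'[k]'(by omega)) := by
    rw [List.getLast?_eq_getElem?]
    simp only [List.length_take]
    have : min (k + 1) l'.length - 1 = k := by omega
    rw [this, List.getElem?_take]
    simp
  have e2 : (l'.drop (k + 1)).head? = some (l'[k + 1]'hk) := by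
    rw [List.head?_drop]
    simp
  have e3 : (l'.drop (k + 1)).getLast? = some a := by
    rw [← ha]
    conv_rhs => rw [hsplit]
    rw [List.getLast?_append_of_ne_nil _ h2]
  have e4 : (l'.take (k + 1)).head? = some b := by
    rw [← hb]
    conv_rhs => rw [hsplit]
    rw [List.head?_append_of_ne_nil _ h1]
  have hlt := cyc_reverse_lt R hR (l'.take (k + 1)) (l'.drop (k + 1)) h1 h2
    (by rw [e3, e4, bd_some]; simp [hab])
    (by rw [e3, e1, bd_some]; simp [hk1])
    (by rw [e4, e2, bd_some]; simp [hk2])
  rw [← hsplit] at hlt
  have hperm : List.Perm ((l'.take (k + 1)).reverse ++ l'.drop (k + 1)) l' := by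
    conv_rhs => rw [hsplit]
    exact (List.reverse_perm _).append_right _
  have := hmin _ ((hperm.nodup_iff).2 hnd') (fun x => (hperm.mem_iff).2 (hall' x))
  omega

/-- **Arrangement in a row.** -/
theorem exists_row (R : α → α → Prop) (hR : ∀ x y, R x y → R y x)
    (hore : ∀ x y, R x y → cf R x + cf R y + 1 ≤ Fintype.card α) :
    ∃ pos : α → ℕ, Function.Injective pos ∧ (∀ x, pos x < Fintype.card α) ∧
      ∀ x y, pos y = pos x + 1 → ¬ R x y := by
  classical
  -- add a dummy element
  let S : Option α → Option α → Prop := fun x y => match x, y with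
    | some x, some y => R x y
    | _, _ => False
  have hS : ∀ x y, S x y → S y x := by
    rintro (_ | x) (_ | y) h
    · exact h
    · exact h
    · exact h
    · exact hR _ _ h
  have hcf : ∀ x, cf S (some x) ≤ cf R x := by
    intro x
    unfold cf
    refine le_of_eq ?_
    symm
    refine Finset.card_bij (fun y _ => some y) ?_ ?_ ?_
    · intro y hy
      simpa [S] using hy
    · intro y _ z _ h
      exact Option.some_injective _ h
    · rintro (_ | y) hy
      · simp [S] at hy
      · exact ⟨y, by simpa [S] using hy, rfl⟩
  have hSore : ∀ x y, S x y → cf S x + cf S y + 1 < Fintype.card (Option α) := by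
    rintro (_ | x) (_ | y) h
    · exact h.elim
    · exact h.elim
    · exact h.elim
    · have h1 := hcf x
      have h2 := hcf y
      have h3 := hore x y h
      rw [Fintype.card_option]
      omega
  obtain ⟨l, hnd, hall, hcyc⟩ := exists_cyclic S hS hSore
  -- rotate the dummy to the front
  obtain ⟨A, B, hAB⟩ := List.append_of_mem (hall none)
  have hnb0 : nb S (B ++ A) = 0 := by
    have hrot : cyc S (none :: (B ++ A)) = 0 := by
      rw [← hcyc, hAB, cyc_rotate]
      simp
    rw [cyc, nb] at hrot
    omega
  have hlist : (none :: (B ++ A)).Perm l := by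
    rw [hAB]
    have : List.Perm (A ++ none :: B) ((none :: B) ++ A) := List.perm_append_comm
    simpa using this.symm
  have hnd2 : (none :: (B ++ A)).Nodup := (hlist.nodup_iff).2 hnd
  have hnd3 : (B ++ A).Nodup := (List.nodup_cons.1 hnd2).2
  have hmem : ∀ x : α, some x ∈ B ++ A := by
    intro x
    have := (hlist.mem_iff).2 (hall (some x))
    simpa using this
  have hlen : (B ++ A).length = Fintype.card α := by
    have h1 : (none :: (B ++ A)).length = Fintype.card (Option α) := by
      rw [← List.toFinset_card_of_nodup hnd2]
      congr 1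
      ext x
      simp only [List.mem_toFinset, Finset.mem_univ, iff_true]
      exact (hlist.mem_iff).2 (hall x)
    rw [List.length_cons, Fintype.card_option] at h1
    omega
  generalize B ++ A = t at hnb0 hnd3 hmem hlen
  refine ⟨fun x => t.idxOf (some x), ?_, ?_, ?_⟩
  · intro x y hxy
    have := (List.idxOf_inj (hmem x)).1 hxy
    exact Option.some_injective _ this
  · intro x
    show t.idxOf (some x) < _
    rw [← hlen]
    exact List.idxOf_lt_length_of_mem (hmem x)
  · intro x y hxy hxR
    have hx : t.idxOf (some x) < t.length := List.idxOf_lt_length_of_mem (hmem x)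
    have hy : t.idxOf (some y) < t.length := List.idxOf_lt_length_of_mem (hmem y)
    simp only at hxy
    set i := t.idxOf (some x) with hi
    have hgx : t[i]'hx = some x := List.getElem_idxOf hx
    have hgy : t[i + 1]'(by omega) = some y := by
      have := List.getElem_idxOf hy
      simp only [hxy] at this
      exact this
    have hsplit : t = t.take (i + 1) ++ t.drop (i + 1) := (List.take_append_drop _ _).symm
    rw [hsplit, nb_append] at hnb0
    have e1 : (t.take (i + 1)).getLast? = some (some x) := by
      rw [List.getLast?_eq_getElem?]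
      simp only [List.length_take]
      have : min (i + 1) t.length - 1 = i := by omega
      rw [this, List.getElem?_take]
      simp only [Nat.lt_succ_self, if_true]
      rw [List.getElem?_eq_getElem hx, hgx]
    have e2 : (t.drop (i + 1)).head? = some (some y) := by
      rw [List.head?_drop, List.getElem?_eq_getElem (by omega), hgy]
    rw [e1, e2, bd_some] at hnb0
    have : S (some x) (some y) := hxR
    simp [this] at hnb0

end main

end Q223.ML
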