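import Pool.Agent.H104.ML.Stm

/-!
# Project ML, job DGB
-/

set_option autoImplicit false

namespace Pool.Agent.Q223.ML

open Pool.Agent.H104.ML Finset

theorem dgb_sum (J : ℕ) :
    ∑ i ∈ range J, ((J : ℝ) - i) ^ 2 * 2 ^ i = 6 * 2 ^ J - ((J : ℝ) ^ 2 + 4 * J + 6) := by
  induction J with
  | zero => simp
  | succ J ih =>
    rw [Finset.sum_range_succ']
    have e : ∀ i ∈ range J, (((J + 1 : ℕ) : ℝ) - ((i + 1 : ℕ) : ℝ)) ^ 2 * 2 ^ (i + 1) =
        2 * (((J : ℝ) - i) ^ 2 * 2 ^ i) := by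
      intro i _
      push_cast
      ring
    rw [Finset.sum_congr rfl e, ← Finset.mul_sum, ih]
    push_cast
    ring

theorem lv_lt {m J b : ℕ} (hb : b ∈ SS m J) : lv m b < J := by
  classical
  unfold SS at hb
  exact (Finset.mem_filter.1 hb).2.2

theorem t_DGB (h : S_MC) : S_DGB := by
  classical
  obtain ⟨C, hC, hMC⟩ := h
  refine ⟨6 * C, by positivity, fun m J hJ hm => ?_⟩
  have hJ0 : (0 : ℝ) < J := by exact_mod_cast hJ
  rw [← Finset.sum_fiberwise_of_maps_to (s := SS m J) (t := range J) (g := lv m)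
    (fun b hb => Finset.mem_range.2 (lv_lt hb))]
  have h1 : ∀ i ∈ range J, ∑ b ∈ (SS m J).filter (fun b => lv m b = i),
      (b.totient : ℝ) / (b : ℝ) ^ 2 * ww m J b ^ 2 ≤
      C / (J : ℝ) ^ 2 * (((J : ℝ) - i) ^ 2 * 2 ^ i) := by
    intro i hi
    have e1 : ∀ b ∈ (SS m J).filter (fun b => lv m b = i),
        (b.totient : ℝ) / (b : ℝ) ^ 2 * ww m J b ^ 2 =
        (b.totient : ℝ) / (b : ℝ) ^ 2 * ((((J : ℝ) - i) / J) ^ 2) := by
      intro b hb
      have := (Finset.mem_filter.1 hb).2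
      unfold ww
      rw [this]
    rw [Finset.sum_congr rfl e1, ← Finset.sum_mul]
    refine (mul_le_mul_of_nonneg_right (hMC m J i hJ hm (Finset.mem_range.1 hi))
      (by positivity)).trans (le_of_eq ?_)
    field_simp
  refine (Finset.sum_le_sum h1).trans ?_
  rw [← Finset.mul_sum, dgb_sum]
  have h2 : 6 * (2 : ℝ) ^ J - ((J : ℝ) ^ 2 + 4 * J + 6) ≤ 6 * 2 ^ J := by
    have : (0 : ℝ) ≤ (J : ℝ) ^ 2 + 4 * J + 6 := by positivity
    linarith
  refine (mul_le_mul_of_nonneg_left h2 (by positivity)).trans (le_of_eq ?_)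
  ring

end Pool.Agent.Q223.ML
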