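import Mathlib

/-!
# L(2,1)-labelings of iterated Mycielski graphs: definitions
-/

set_option autoImplicit false

namespace Q223.ML

universe u

/-- The Mycielski graph of `G`. Its vertices are `u_v = some (inl v)`, `u'_v = some (inr v)` for the
vertices `v` of `G`, and `w = none`. The edges are: `u_a u_b` and `u_a u'_b` (that is, `u'_b` is
adjacent to the neighbours of `u_b`) for the edges `ab` of `G`, and `u'_a w` for all `a`. -/
def myc {V : Type u} (G : SimpleGraph V) : SimpleGraph (Option (V ⊕ V)) where
  Adj x y := match x, y with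
    | some (.inl a), some (.inl b) => G.Adj a b
    | some (.inl a), some (.inr b) => G.Adj a b
    | some (.inr a), some (.inl b) => G.Adj a b
    | some (.inr _), none => True
    | none, some (.inr _) => True
    | _, _ => False
  symm := ⟨by
    rintro (_ | a | a) (_ | b | b) h
    all_goals first
      | exact h
      | exact SimpleGraph.Adj.symm h⟩
  loopless := ⟨by
    rintro (_ | a | a) h
    · exact h
    · exact G.irrefl h
    · exact h⟩

/-- The vertex set of the `t`-th iterated Mycielski graph. -/
def iterV (V : Type u) : ℕ → Type u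
  | 0 => V
  | t + 1 => Option (iterV V t ⊕ iterV V t)

/-- The `t`-th iterated Mycielski graph `M^t(G)`; `M^0(G) = G`, `M^{t+1}(G) = M(M^t(G))`. -/
def iterG {V : Type u} (G : SimpleGraph V) : (t : ℕ) → SimpleGraph (iterV V t)
  | 0 => G
  | t + 1 => myc (iterG G t)

/-- `L(2,1)`-labelings. -/
def IsLabeling {W : Type u} (H : SimpleGraph W) (f : W → ℕ) : Prop :=
  (∀ u v, H.Adj u v → 2 ≤ |(f u : ℤ) - f v|) ∧ (∀ u v, H.dist u v = 2 → 1 ≤ |(f u : ℤ) - f v|)

/-- The `L(2,1)`-labeling number. -/
noncomputable def lambda {W : Type u} (H : SimpleGraph W) : ℕ :=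
  sInf {k | ∃ f : W → ℕ, IsLabeling H f ∧ ∀ v, f v ≤ k}

end Q223.ML
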