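import Pool.Agent.H104.ML.Stm

/-!
# Project ML, job EDA
-/

set_option autoImplicit false

namespace Pool.Agent.Q223.ML.EDA

open Pool.Agent.H104.ML Finset

theorem mem_SS {m J b : ℕ} (hb : b ∈ SS m J) : 1 ≤ b ∧ b ≤ m ∧ lv m b < J := by
  classical
  unfold SS at hb
  have h1 := Finset.mem_filter.1 hb
  have h2 := Finset.mem_Icc.1 h1.1
  exact ⟨h2.1, h2.2, h1.2.2⟩

/-- Chebyshev: `∑_{p ≤ x} p log p ≤ 2 x²` -/
theorem cheb (N : ℕ) (x : ℝ) (hx : (N : ℝ) ≤ x) :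
    ∑ p ∈ (Ioc 0 N).filter Nat.Prime, (p : ℝ) * Real.log p ≤ 2 * x ^ 2 := by
  have hN : (0 : ℝ) ≤ N := Nat.cast_nonneg N
  have h1 : ∑ p ∈ (Ioc 0 N).filter Nat.Prime, (p : ℝ) * Real.log p ≤
      ∑ p ∈ (Ioc 0 N).filter Nat.Prime, (N : ℝ) * Real.log p := by
    refine Finset.sum_le_sum fun p hp => ?_
    have h2 := Finset.mem_Ioc.1 (Finset.mem_filter.1 hp).1
    refine mul_le_mul_of_nonneg_right (by exact_mod_cast h2.2) (Real.log_nonneg ?_)
    exact_mod_cast h2.1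
  have h2 : ∑ p ∈ (Ioc 0 N).filter Nat.Prime, Real.log p = Chebyshev.theta (N : ℝ) := by
    unfold Chebyshev.theta
    rw [Nat.floor_natCast]
  have h3 := Chebyshev.theta_le_log4_mul_x hN
  have h4 : Real.log 4 ≤ 2 := by
    have e : Real.log 4 = 2 * Real.log 2 := by
      rw [show (4 : ℝ) = 2 ^ 2 by norm_num, Real.log_pow]
      norm_num
    have := Real.log_two_lt_d9
    linarith
  rw [← Finset.mul_sum, h2] at h1
  refine h1.trans ?_
  have h5 : (N : ℝ) * Chebyshev.theta N ≤ N * (2 * N) := by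
    refine mul_le_mul_of_nonneg_left (h3.trans ?_) hN
    exact mul_le_mul_of_nonneg_right h4 hN
  nlinarith

theorem inner (m J b : ℕ) (hb : b ∈ SS m J) :
    ∑ c ∈ (SS m J).filter (fun c => b ∣ c ∧ (c / b).Prime),
      (b.totient : ℝ) * Real.log ((c / b : ℕ) : ℝ) / ((b : ℝ) ^ 2 * ((c / b : ℕ) : ℝ)) *
        (c : ℝ) ^ 2 ≤ 2 * (m : ℝ) ^ 2 * ((b.totient : ℝ) / (b : ℝ) ^ 2) := by
  obtain ⟨hb1, hbm, -⟩ := mem_SS hb
  have hb0 : (0 : ℝ) < b := by exact_mod_cast hb1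
  have e1 : ∀ c ∈ (SS m J).filter (fun c => b ∣ c ∧ (c / b).Prime),
      (b.totient : ℝ) * Real.log ((c / b : ℕ) : ℝ) / ((b : ℝ) ^ 2 * ((c / b : ℕ) : ℝ)) *
        (c : ℝ) ^ 2 = (b.totient : ℝ) * (((c / b : ℕ) : ℝ) * Real.log ((c / b : ℕ) : ℝ)) := by
    intro c hc
    obtain ⟨-, hd, hp⟩ := Finset.mem_filter.1 hc
    have e2 : (c : ℝ) = (b : ℝ) * ((c / b : ℕ) : ℝ) := by
      exact_mod_cast (Nat.mul_div_cancel' hd).symm
    have h0 : (0 : ℝ) < ((c / b : ℕ) : ℝ) := by exact_mod_cast hp.pos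
    rw [e2]
    generalize ((c / b : ℕ) : ℝ) = y at h0
    field_simp
  rw [Finset.sum_congr rfl e1, ← Finset.mul_sum]
  have h1 : ∑ c ∈ (SS m J).filter (fun c => b ∣ c ∧ (c / b).Prime),
      ((c / b : ℕ) : ℝ) * Real.log ((c / b : ℕ) : ℝ) ≤
      ∑ p ∈ (Ioc 0 (m / b)).filter Nat.Prime, (p : ℝ) * Real.log p := by
    have hinj : Set.InjOn (fun c : ℕ => c / b)
        ((SS m J).filter (fun c => b ∣ c ∧ (c / b).Prime) : Finset ℕ) := by
      intro c hc c' hc' hcc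
      have h2 := (Finset.mem_filter.1 (Finset.mem_coe.1 hc)).2.1
      have h3 := (Finset.mem_filter.1 (Finset.mem_coe.1 hc')).2.1
      have hcc' : c / b = c' / b := hcc
      rw [← Nat.mul_div_cancel' h2, ← Nat.mul_div_cancel' h3, hcc']
    rw [← Finset.sum_image (f := fun p : ℕ => (p : ℝ) * Real.log p)
      (g := fun c : ℕ => c / b) hinj]
    refine Finset.sum_le_sum_of_subset_of_nonneg ?_ ?_
    · intro p hp
      obtain ⟨c, hc, rfl⟩ := Finset.mem_image.1 hp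
      obtain ⟨hc1, hd, hpr⟩ := Finset.mem_filter.1 hc
      refine Finset.mem_filter.2 ⟨Finset.mem_Ioc.2 ⟨hpr.pos, ?_⟩, hpr⟩
      exact Nat.div_le_div_right (mem_SS hc1).2.1
    · intro p hp _
      have h2 := Finset.mem_Ioc.1 (Finset.mem_filter.1 hp).1
      exact mul_nonneg (Nat.cast_nonneg p) (Real.log_nonneg (by exact_mod_cast h2.1))
  have h2 := cheb (m / b) ((m : ℝ) / b) Nat.cast_div_le
  refine (mul_le_mul_of_nonneg_left (h1.trans h2) (Nat.cast_nonneg _)).trans (le_of_eq ?_)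
  field_simp

theorem all (C : ℝ) (hC : 0 ≤ C) (m J : ℕ)
    (hMC : ∀ i : ℕ, i < J → ∑ b ∈ (SS m J).filter (fun b => lv m b = i),
      (b.totient : ℝ) / (b : ℝ) ^ 2 ≤ C * 2 ^ i) :
    ∑ b ∈ SS m J, (b.totient : ℝ) / (b : ℝ) ^ 2 ≤ C * 2 ^ J := by
  rw [← Finset.sum_fiberwise_of_maps_to (s := SS m J) (t := range J) (g := lv m)
    (fun b hb => Finset.mem_range.2 (mem_SS hb).2.2)]
  refine (Finset.sum_le_sum fun i hi => hMC i (Finset.mem_range.1 hi)).trans ?_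
  rw [← Finset.mul_sum]
  refine mul_le_mul_of_nonneg_left ?_ hC
  have h1 : ∀ J : ℕ, ∑ i ∈ range J, (2 : ℝ) ^ i = 2 ^ J - 1 := by
    intro J
    induction J with
    | zero => simp
    | succ J ih => rw [Finset.sum_range_succ, ih]; ring
  rw [h1]
  linarith

end Pool.Agent.Q223.ML.EDA

namespace Pool.Agent.Q223.ML

open Pool.Agent.H104.ML Finset

theorem t_EDA (h : S_MC) : S_EDA := by
  classical
  obtain ⟨C, hC, hMC⟩ := h
  refine ⟨2 * C, by positivity, fun m J hJ hm => ?_⟩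
  have e : ∑ x ∈ edges (SS m J), (x.1.totient : ℝ) * Real.log ((x.2 / x.1 : ℕ) : ℝ) /
      ((x.1 : ℝ) ^ 2 * ((x.2 / x.1 : ℕ) : ℝ)) * (x.2 : ℝ) ^ 2 =
      ∑ b ∈ SS m J, ∑ c ∈ (SS m J).filter (fun c => b ∣ c ∧ (c / b).Prime),
      (b.totient : ℝ) * Real.log ((c / b : ℕ) : ℝ) / ((b : ℝ) ^ 2 * ((c / b : ℕ) : ℝ)) *
        (c : ℝ) ^ 2 := by
    unfold edges
    rw [Finset.sum_filter, Finset.sum_product]
    refine Finset.sum_congr rfl fun b _ => ?_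
    rw [Finset.sum_filter]
  rw [e]
  refine (Finset.sum_le_sum fun b hb => EDA.inner m J b hb).trans ?_
  rw [← Finset.mul_sum]
  refine (mul_le_mul_of_nonneg_left (EDA.all C hC m J fun i hi => hMC m J i hJ hm hi)
    (by positivity)).trans (le_of_eq ?_)
  ring

end Pool.Agent.Q223.ML
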