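import Mathlib
import Pool.Agent.Q223.ML.Defs

/-!
# The Mycielski step for L(2,1)-labelings, and graphs of maximum degree at most two
-/

set_option autoImplicit false

namespace Q223.ML

universe u

/-- A labeling with labels at most `L`, in a convenient form. -/
structure Lab {W : Type u} (H : SimpleGraph W) (f : W → ℕ) (L : ℕ) : Prop where
  adj : ∀ u v, H.Adj u v → f u + 2 ≤ f v ∨ f v + 2 ≤ f u
  com : ∀ u v c, u ≠ v → H.Adj u c → H.Adj v c → f u ≠ f v
  le : ∀ u, f u ≤ L

theorem Lab.isLabeling {W : Type u} {H : SimpleGraph W} {f : W → ℕ} {L : ℕ} (h : Lab H f L) :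
    IsLabeling H f := by
  constructor
  · intro u v huv
    rcases h.adj u v huv with h1 | h1
    · rw [abs_sub_comm, le_abs]
      left
      omega
    · rw [le_abs]
      left
      omega
  · intro u v huv
    have hne : f u ≠ f v := by
      have hreach : H.Reachable u v := by
        by_contra hn
        rw [SimpleGraph.dist_eq_zero_of_not_reachable hn] at huv
        omega
      obtain ⟨p, hp⟩ := hreach.exists_walk_length_eq_dist
      have hp2 : p.length = 2 := by rw [hp, huv]
      have huv' : u ≠ v := by
        rintro rfl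
        rw [SimpleGraph.dist_self] at huv
        omega
      cases p with
      | nil => simp at hp2
      | cons h1 q =>
        cases q with
        | nil => simp at hp2
        | cons h2 r =>
          cases r with
          | nil => exact h.com _ _ _ huv' h1 h2.symm
          | cons h3 s =>
            simp only [SimpleGraph.Walk.length_cons] at hp2
            omega
    rw [le_abs]
    omega

theorem Lab.lambda_le {W : Type u} {H : SimpleGraph W} {f : W → ℕ} {L : ℕ} (h : Lab H f L) :
    lambda H ≤ L := by
  unfold lambda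
  exact Nat.sInf_le ⟨f, h.isLabeling, h.le⟩

theorem Lab.mono {W : Type u} {H : SimpleGraph W} {f : W → ℕ} {L L' : ℕ} (h : Lab H f L)
    (hL : L ≤ L') : Lab H f L' :=
  ⟨h.adj, h.com, fun u => (h.le u).trans hL⟩

/-- The Mycielski step. -/
theorem Lab.step {W : Type u} [Finite W] [Nonempty W] {H : SimpleGraph W} {f : W → ℕ} {L : ℕ}
    (h : Lab H f L) : ∃ g, Lab (myc H) g (L + Nat.card W + 1) := by
  obtain ⟨u0, hu0⟩ : ∃ u0, ∀ u, f u ≤ f u0 := Finite.exists_max f
  have hpos : 0 < Nat.card W := Nat.card_pos
  let e0 := Finite.equivFin W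
  let e : W ≃ Fin (Nat.card W) := e0.trans (Equiv.swap (e0 u0) ⟨0, hpos⟩)
  have he0 : (e u0 : ℕ) = 0 := by
    simp [e]
  have hinj : ∀ a b, a ≠ b → (e a : ℕ) ≠ e b := by
    intro a b hab hc
    exact hab (e.injective (Fin.ext hc))
  have hlt : ∀ a, (e a : ℕ) < Nat.card W := fun a => (e a).2
  have hL := h.le u0
  -- the labeling
  let g : Option (W ⊕ W) → ℕ := fun x => match x with
    | none => 0
    | some (.inl a) => f a + 1
    | some (.inr a) => f u0 + 2 + e a
  have key : ∀ a b, H.Adj a b → f a + 1 + 2 ≤ f u0 + 2 + e b := by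
    intro a b hab
    rcases Nat.lt_or_ge (f a) (f u0) with h1 | h1
    · omega
    · have h2 : f a = f u0 := le_antisymm (hu0 a) h1
      have h3 : b ≠ u0 := by
        rintro rfl
        rcases h.adj _ _ hab with h4 | h4 <;> omega
      have h4 := hinj b u0 h3
      omega
  refine ⟨g, ?_, ?_, ?_⟩
  · rintro (_ | a | a) (_ | b | b) hab
    · exact hab.elim
    · exact hab.elim
    · left
      show 0 + 2 ≤ f u0 + 2 + e b
      omega
    · exact hab.elim
    · have := h.adj a b hab
      show f a + 1 + 2 ≤ f b + 1 ∨ f b + 1 + 2 ≤ f a + 1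
      omega
    · left
      exact key a b hab
    · right
      show 0 + 2 ≤ f u0 + 2 + e a
      omega
    · right
      exact key b a (SimpleGraph.Adj.symm hab)
    · exact hab.elim
  · rintro (_ | a | a) (_ | b | b) c hne hac hbc
    · exact (hne rfl).elim
    · show 0 ≠ f b + 1
      omega
    · show 0 ≠ f u0 + 2 + e b
      omega
    · show f a + 1 ≠ 0
      omega
    · have hab : a ≠ b := by
        rintro rfl
        exact hne rfl
      show f a + 1 ≠ f b + 1
      have : f a ≠ f b := by
        rcases c with _ | c | c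
        · exact hac.elim
        · exact h.com a b c hab hac hbc
        · exact h.com a b c hab hac hbc
      omega
    · show f a + 1 ≠ f u0 + 2 + e b
      have := hu0 a
      omega
    · show f u0 + 2 + e a ≠ 0
      omega
    · show f u0 + 2 + e a ≠ f b + 1
      have := hu0 b
      omega
    · have hab : a ≠ b := by
        rintro rfl
        exact hne rfl
      have := hinj a b hab
      show f u0 + 2 + (e a : ℕ) ≠ f u0 + 2 + e b
      omega
  · rintro (_ | a | a)
    · exact Nat.zero_le _
    · show f a + 1 ≤ _
      have := hu0 a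
      omega
    · show f u0 + 2 + (e a : ℕ) ≤ _
      have := hlt a
      omega

/-! ## Maximum degree at most two -/

/-- The cyclic pattern. -/
def pat (m i : ℕ) : ℕ :=
  if m % 3 = 0 then 2 * (i % 3)
  else if m % 3 = 1 then
    (if i + 4 = m then 0 else if i + 3 = m then 3 else if i + 2 = m then 1
      else if i + 1 = m then 4 else 2 * (i % 3))
  else (if i + 2 = m then 1 else if i + 1 = m then 3 else 2 * (i % 3))

/-- Cyclically neighbouring positions. -/
def nx (m i j : ℕ) : Prop :=
  j = i + 1 ∨ i = j + 1 ∨ (i = 0 ∧ j + 1 = m) ∨ (j = 0 ∧ i + 1 = m)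

theorem pat_le (m i : ℕ) : pat m i ≤ 4 := by
  unfold pat
  split_ifs <;> omega

theorem pat_adj (m i j : ℕ) (hi : i < m) (hj : j < m) (hij : i ≠ j) (h : nx m i j) :
    pat m i + 2 ≤ pat m j ∨ pat m j + 2 ≤ pat m i := by
  unfold nx at h
  unfold pat
  split_ifs <;> omega

theorem pat_com (m i j k : ℕ) (hi : i < m) (hj : j < m) (hk : k < m) (hij : i ≠ j) (hik : i ≠ k)
    (hjk : j ≠ k) (h1 : nx m i k) (h2 : nx m j k) : pat m i ≠ pat m j := by
  unfold nx at h1 h2
  unfold pat
  split_ifs <;> omega

end Q223.ML
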