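import Mathlib
import Pool.Agent.Q223.ML.Step

/-!
# Graphs of maximum degree at most two have L(2,1)-labelings with labels at most four
-/

set_option autoImplicit false

namespace Q223.ML

universe u

variable {V : Type u} (G : SimpleGraph V)

/-- Every vertex has at most two neighbours. -/
def Deg2 : Prop := ∀ a x y z, G.Adj a x → G.Adj a y → G.Adj a z → x ≠ y → x ≠ z → y = z

/-- Paths in `U`. -/
structure Ch (U : Finset V) (m : ℕ) (p : ℕ → V) : Prop where
  inj : ∀ i j, i < m → j < m → p i = p j → i = j
  mem : ∀ i, i < m → p i ∈ U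
  adj : ∀ i, i + 1 < m → G.Adj (p i) (p (i + 1))

variable {G}

theorem Ch.le_card {U : Finset V} {m : ℕ} {p : ℕ → V} (h : Ch G U m p) : m ≤ U.card := by
  have := Finset.card_le_card_of_injOn (s := Finset.range m) (t := U) p
    (fun i hi => h.mem i (Finset.mem_range.1 hi))
    (fun i hi j hj hij => h.inj i j (Finset.mem_range.1 hi) (Finset.mem_range.1 hj) hij)
  simpa using this

theorem Ch.rev {U : Finset V} {m : ℕ} {p : ℕ → V} (h : Ch G U m p) :
    Ch G U m (fun i => p (m - 1 - i)) := by
  refine ⟨?_, ?_, ?_⟩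
  · intro i j hi hj hij
    have := h.inj (m - 1 - i) (m - 1 - j) (by omega) (by omega) hij
    omega
  · intro i hi
    exact h.mem _ (by omega)
  · intro i hi
    have := h.adj (m - 1 - (i + 1)) (by omega)
    have e : m - 1 - (i + 1) + 1 = m - 1 - i := by omega
    rw [e] at this
    exact this.symm

theorem Ch.first {U : Finset V} {m : ℕ} {p : ℕ → V} (h : Ch G U m p) (hm : 0 < m)
    (hdeg : Deg2 G) (hU : ∀ u ∈ U, ∀ v, G.Adj u v → v ∈ U)
    (hmax : ∀ m' p', Ch G U m' p' → m' ≤ m) (y : V) (hy : G.Adj (p 0) y) :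
    ∃ j, j < m ∧ y = p j ∧ nx m 0 j := by
  classical
  have hyU : y ∈ U := hU _ (h.mem 0 hm) _ hy
  by_cases hmem : ∃ j, j < m ∧ y = p j
  · obtain ⟨j, hj, rfl⟩ := hmem
    refine ⟨j, hj, rfl, ?_⟩
    have hj0 : j ≠ 0 := by
      rintro rfl
      exact G.irrefl hy
    by_contra hnx
    unfold nx at hnx
    have h1 : 1 < j := by omega
    have h2 : j + 1 < m := by omega
    have a1 : G.Adj (p j) (p (j + 1)) := h.adj j h2
    have a2 : G.Adj (p j) (p (j - 1)) := by
      have := h.adj (j - 1) (by omega)
      have e : j - 1 + 1 = j := by omega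
      rw [e] at this
      exact this.symm
    have h3 := hdeg (p j) (p 0) (p (j - 1)) (p (j + 1)) hy.symm a2 a1
      (fun hc => by
        have := h.inj 0 (j - 1) (by omega) (by omega) hc
        omega)
      (fun hc => by
        have := h.inj 0 (j + 1) (by omega) (by omega) hc
        omega)
    have := h.inj (j - 1) (j + 1) (by omega) (by omega) h3
    omega
  · exfalso
    push Not at hmem
    have hch : Ch G U (m + 1) (fun i => if i = 0 then y else p (i - 1)) := by
      refine ⟨?_, ?_, ?_⟩
      · intro i j hi hj hij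
        by_cases hi0 : i = 0
        · by_cases hj0 : j = 0
          · omega
          · simp only [hi0, hj0, if_true, if_false] at hij
            exact (hmem (j - 1) (by omega) hij).elim
        · by_cases hj0 : j = 0
          · simp only [hi0, hj0, if_true, if_false] at hij
            exact (hmem (i - 1) (by omega) hij.symm).elim
          · simp only [hi0, hj0, if_false] at hij
            have := h.inj (i - 1) (j - 1) (by omega) (by omega) hij
            omega
      · intro i hi
        by_cases hi0 : i = 0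
        · simp only [hi0, if_true]
          exact hyU
        · simp only [hi0, if_false]
          exact h.mem _ (by omega)
      · intro i hi
        by_cases hi0 : i = 0
        · subst hi0
          simpa using hy.symm
        · have e : i - 1 + 1 = i := by omega
          have := h.adj (i - 1) (by omega)
          rw [e] at this
          simp only [hi0, if_false, Nat.add_eq_zero_iff, one_ne_zero, and_false,
            Nat.add_sub_cancel]
          exact this
    have := hmax _ _ hch
    omega

theorem Ch.all {U : Finset V} {m : ℕ} {p : ℕ → V} (h : Ch G U m p)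
    (hdeg : Deg2 G) (hU : ∀ u ∈ U, ∀ v, G.Adj u v → v ∈ U)
    (hmax : ∀ m' p', Ch G U m' p' → m' ≤ m) (i : ℕ) (hi : i < m) (y : V) (hy : G.Adj (p i) y) :
    ∃ j, j < m ∧ y = p j ∧ nx m i j := by
  by_cases h0 : i = 0
  · subst h0
    exact h.first hi hdeg hU hmax y hy
  by_cases h1 : i + 1 = m
  · have h2 := h.rev.first (by omega) hdeg hU hmax y (by
      have e : m - 1 - 0 = i := by omega
      simp only [e]
      exact hy)
    obtain ⟨j, hj, hyj, hn⟩ := h2
    refine ⟨m - 1 - j, by omega, hyj, ?_⟩
    unfold nx at hn ⊢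
    omega
  · have a1 : G.Adj (p i) (p (i + 1)) := h.adj i (by omega)
    have a2 : G.Adj (p i) (p (i - 1)) := by
      have := h.adj (i - 1) (by omega)
      have e : i - 1 + 1 = i := by omega
      rw [e] at this
      exact this.symm
    by_cases e1 : y = p (i + 1)
    · exact ⟨i + 1, by omega, e1, Or.inl rfl⟩
    by_cases e2 : y = p (i - 1)
    · exact ⟨i - 1, by omega, e2, Or.inr (Or.inl (by omega))⟩
    exfalso
    have h3 := hdeg (p i) y (p (i - 1)) (p (i + 1)) hy a2 a1 e2 e1
    have := h.inj (i - 1) (i + 1) (by omega) (by omega) h3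
    omega

theorem exists_max_chain {U : Finset V} (hU : U.Nonempty) :
    ∃ m p, Ch G U m p ∧ 0 < m ∧ ∀ m' p', Ch G U m' p' → m' ≤ m := by
  classical
  obtain ⟨u0, hu0⟩ := hU
  have h1 : Ch G U 1 (fun _ => u0) :=
    ⟨fun i j hi hj _ => by omega, fun _ _ => hu0, fun i hi => by omega⟩
  have hex : ∃ d m p, Ch G U m p ∧ U.card = m + d :=
    ⟨U.card - 1, 1, _, h1, by have := h1.le_card; omega⟩
  obtain ⟨m, p, hch, hd⟩ := Nat.find_spec hex
  have hmax : ∀ m' p', Ch G U m' p' → m' ≤ m := by
    intro m' p' h'
    have h2 := Nat.find_min' hex ⟨m', p', h', (by have := h'.le_card; omega :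
      U.card = m' + (U.card - m'))⟩
    have := h'.le_card
    omega
  exact ⟨m, p, hch, hmax _ _ h1, hmax⟩

theorem two_aux (hdeg : Deg2 G) : ∀ (k : ℕ) (U : Finset V), U.card = k →
    (∀ u ∈ U, ∀ v, G.Adj u v → v ∈ U) →
    ∃ f : V → ℕ, (∀ u, f u ≤ 4) ∧
      (∀ u ∈ U, ∀ v ∈ U, G.Adj u v → f u + 2 ≤ f v ∨ f v + 2 ≤ f u) ∧
      (∀ u ∈ U, ∀ v ∈ U, ∀ c, u ≠ v → G.Adj u c → G.Adj v c → f u ≠ f v) := by
  classical
  intro k
  induction k using Nat.strong_induction_on with
  | _ k ih =>
    intro U hk hU
    rcases U.eq_empty_or_nonempty with rfl | hne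
    · exact ⟨fun _ => 0, by simp, by simp, by simp⟩
    obtain ⟨m, p, hch, hm, hmax⟩ := exists_max_chain (G := G) hne
    have hall := hch.all hdeg hU hmax
    let T : V → Prop := fun v => ∃ i, i < m ∧ p i = v
    have hclosed : ∀ u v, G.Adj u v → T u → T v := by
      rintro _ v huv ⟨i, hi, rfl⟩
      obtain ⟨j, hj, hjv, _⟩ := hall i hi v huv
      exact ⟨j, hj, hjv.symm⟩
    let U' := U.filter (fun v => ¬ T v)
    have hU'lt : U'.card < k := by
      rw [← hk]
      refine Finset.card_lt_card ?_
      rw [Finset.filter_ssubset]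
      exact ⟨p 0, hch.mem 0 hm, fun hc => hc ⟨0, hm, rfl⟩⟩
    obtain ⟨f', h1, h2, h3⟩ := ih U'.card hU'lt U' rfl (by
      intro u hu v huv
      simp only [U', Finset.mem_filter] at hu ⊢
      exact ⟨hU u hu.1 v huv, fun hc => hu.2 (hclosed v u huv.symm hc)⟩)
    obtain ⟨ix, hix⟩ : ∃ ix : V → ℕ, ∀ i, i < m → ix (p i) = i := by
      refine ⟨fun v => if h : T v then h.choose else 0, ?_⟩
      intro i hi
      have hT : T (p i) := ⟨i, hi, rfl⟩
      simp only [hT, dif_pos]
      exact hch.inj _ _ hT.choose_spec.1 hi hT.choose_spec.2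
    refine ⟨fun v => if T v then pat m (ix v) else f' v, ?_, ?_, ?_⟩
    · intro u
      dsimp only
      split_ifs
      · exact pat_le _ _
      · exact h1 u
    · intro u hu v hv huv
      by_cases hT : T u
      · have hT' := hclosed u v huv hT
        simp only [hT, hT', if_true]
        obtain ⟨i, hi, rfl⟩ := hT
        obtain ⟨j, hj, rfl, hn⟩ := hall i hi v huv
        rw [hix i hi, hix j hj]
        refine pat_adj m i j hi hj ?_ hn
        rintro rfl
        exact G.irrefl huv
      · have hT' : ¬ T v := fun hc => hT (hclosed v u huv.symm hc)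
        simp only [hT, hT', if_false]
        exact h2 u (by simp [U', hu, hT]) v (by simp [U', hv, hT']) huv
    · intro u hu v hv c huv huc hvc
      by_cases hT : T u
      · have hTc := hclosed u c huc hT
        have hT' := hclosed c v hvc.symm hTc
        simp only [hT, hT', if_true]
        obtain ⟨i, hi, rfl⟩ := hT
        obtain ⟨j, hj, rfl⟩ := hT'
        obtain ⟨k, hk, rfl, hn1⟩ := hall i hi c huc
        obtain ⟨k', hk', hkk, hn2⟩ := hall j hj _ hvc
        have hkk' := hch.inj k k' hk hk' hkk
        subst hkk'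
        rw [hix i hi, hix j hj]
        refine pat_com m i j k hi hj hk ?_ ?_ ?_ hn1 hn2
        · rintro rfl
          exact huv rfl
        · rintro rfl
          exact G.irrefl huc
        · rintro rfl
          exact G.irrefl hvc
      · have hTc : ¬ T c := fun hc => hT (hclosed c u huc.symm hc)
        have hT' : ¬ T v := fun hc => hTc (hclosed v c hvc hc)
        simp only [hT, hT', if_false]
        exact h3 u (by simp [U', hu, hT]) v (by simp [U', hv, hT']) c huv huc hvc

theorem exists_lab_two [Fintype V] (hdeg : Deg2 G) : ∃ f, Lab G f 4 := by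
  obtain ⟨f, h1, h2, h3⟩ := two_aux hdeg _ Finset.univ rfl (by simp)
  exact ⟨f, fun u v huv => h2 u (by simp) v (by simp) huv,
    fun u v c huv h4 h5 => h3 u (by simp) v (by simp) c huv h4 h5, h1⟩

end Q223.ML
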