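import Mathlib
import Pool.Agent.Q223.ML.Arr
import Pool.Agent.Q223.ML.Two

/-!
# L(2,1)-labelings of Mycielski graphs with labels at most `n + 1 + Δ²`
-/

set_option autoImplicit false

namespace Q223.ML

universe u

open Classical in
/-- The degree. -/
noncomputable def dg {W : Type u} [Fintype W] (H : SimpleGraph W) (u : W) : ℕ :=
  (Finset.univ.filter (fun v => H.Adj u v)).card

/-- Labelings from a partition into classes. -/
theorem class_lab {W X : Type u} [Fintype W] [Fintype X] (H : SimpleGraph W) (cl : W → X)
    (h1 : ∀ u v, H.Adj u v → cl u ≠ cl v)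
    (h2 : ∀ u v c, u ≠ v → H.Adj u c → H.Adj v c → cl u ≠ cl v)
    (D : X → ℕ) (hD : ∀ x, ∃ S : Finset W, (∀ u, cl u = x → u ∈ S) ∧ ∑ u ∈ S, dg H u ≤ D x)
    (hore : ∀ u v, H.Adj u v → D (cl u) + D (cl v) + 1 ≤ Fintype.card X) :
    ∃ f, Lab H f (Fintype.card X - 1) := by
  classical
  let R : X → X → Prop := fun x y => ∃ u v, cl u = x ∧ cl v = y ∧ H.Adj u v
  have hR : ∀ x y, R x y → R y x := by
    rintro _ _ ⟨u, v, rfl, rfl, h⟩
    exact ⟨v, u, rfl, rfl, h.symm⟩
  have hcf : ∀ x, cf R x ≤ D x := by
    intro x
    obtain ⟨S, hS, hsum⟩ := hD x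
    refine le_trans ?_ hsum
    have hsub : Finset.univ.filter (R x) ⊆
        S.biUnion (fun u => (Finset.univ.filter (fun v => H.Adj u v)).image cl) := by
      intro y hy
      simp only [Finset.mem_filter, Finset.mem_univ, true_and] at hy
      obtain ⟨u, v, hu, hv, huv⟩ := hy
      rw [Finset.mem_biUnion]
      exact ⟨u, hS u hu, Finset.mem_image.2 ⟨v, by simpa using huv, hv⟩⟩
    have hcard : cf R x ≤ (S.biUnion
        (fun u => (Finset.univ.filter (fun v => H.Adj u v)).image cl)).card := by
      unfold cf
      refine le_trans (le_of_eq ?_) (Finset.card_le_card hsub)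
      congr
    refine hcard.trans (Finset.card_biUnion_le.trans (Finset.sum_le_sum ?_))
    intro u _
    refine Finset.card_image_le.trans (le_of_eq ?_)
    unfold dg
    congr
  obtain ⟨pos, hinj, hlt, hrow⟩ := exists_row R hR (by
    rintro _ _ ⟨u, v, rfl, rfl, h⟩
    have a1 := hcf (cl u)
    have a2 := hcf (cl v)
    have a3 := hore u v h
    omega)
  refine ⟨fun u => pos (cl u), ?_, ?_, ?_⟩
  · intro u v huv
    have a1 : pos (cl u) ≠ pos (cl v) := fun hc => h1 u v huv (hinj hc)
    have a2 : pos (cl v) ≠ pos (cl u) + 1 := fun hc => hrow _ _ hc ⟨u, v, rfl, rfl, huv⟩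
    have a3 : pos (cl u) ≠ pos (cl v) + 1 := fun hc => hrow _ _ hc ⟨v, u, rfl, rfl, huv.symm⟩
    omega
  · intro u v c huv h3 h4 hc
    exact h2 u v c huv h3 h4 (hinj hc)
  · intro u
    have := hlt (cl u)
    omega

variable {V : Type u} [Fintype V] (G : SimpleGraph V)

theorem dg_none : dg (myc G) none ≤ Fintype.card V := by
  classical
  unfold dg
  have hsub : Finset.univ.filter (fun v => (myc G).Adj none v) ⊆
      Finset.univ.image (fun v : V => some (Sum.inr v)) := by
    rintro (_ | a | a) h
    · simp only [Finset.mem_filter, Finset.mem_univ, true_and] at h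
      exact h.elim
    · simp only [Finset.mem_filter, Finset.mem_univ, true_and] at h
      exact h.elim
    · simp
  refine (le_trans (le_of_eq ?_) (Finset.card_le_card hsub)).trans Finset.card_image_le
  congr

theorem dg_inl (a : V) : dg (myc G) (some (Sum.inl a)) ≤ 2 * dg G a := by
  classical
  unfold dg
  have hsub : Finset.univ.filter (fun v => (myc G).Adj (some (Sum.inl a)) v) ⊆
      (Finset.univ.filter (fun v => G.Adj a v)).image (fun v : V => some (Sum.inl v)) ∪
      (Finset.univ.filter (fun v => G.Adj a v)).image (fun v : V => some (Sum.inr v)) := by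
    rintro (_ | b | b) h
    · simp only [Finset.mem_filter, Finset.mem_univ, true_and] at h
      exact h.elim
    · simp only [Finset.mem_filter, Finset.mem_univ, true_and] at h
      exact Finset.mem_union_left _ (Finset.mem_image.2
        ⟨b, Finset.mem_filter.2 ⟨Finset.mem_univ _, h⟩, rfl⟩)
    · simp only [Finset.mem_filter, Finset.mem_univ, true_and] at h
      exact Finset.mem_union_right _ (Finset.mem_image.2
        ⟨b, Finset.mem_filter.2 ⟨Finset.mem_univ _, h⟩, rfl⟩)
  have h1 := (le_trans (Finset.card_le_card hsub) (Finset.card_union_le _ _))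
  have h2 : ((Finset.univ.filter (fun v => G.Adj a v)).image
    (fun v : V => (some (Sum.inl v) : Option (V ⊕ V)))).card ≤ _ := Finset.card_image_le
  have h3 : ((Finset.univ.filter (fun v => G.Adj a v)).image
    (fun v : V => (some (Sum.inr v) : Option (V ⊕ V)))).card ≤ _ := Finset.card_image_le
  have h4 := h1.trans (Nat.add_le_add h2 h3)
  rw [← two_mul] at h4
  convert h4

theorem dg_inr (a : V) : dg (myc G) (some (Sum.inr a)) ≤ dg G a + 1 := by
  classical
  unfold dg
  have hsub : Finset.univ.filter (fun v => (myc G).Adj (some (Sum.inr a)) v) ⊆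
      (Finset.univ.filter (fun v => G.Adj a v)).image (fun v : V => some (Sum.inl v)) ∪
      {none} := by
    rintro (_ | b | b) h
    · exact Finset.mem_union_right _ (by simp)
    · simp only [Finset.mem_filter, Finset.mem_univ, true_and] at h
      exact Finset.mem_union_left _ (Finset.mem_image.2
        ⟨b, Finset.mem_filter.2 ⟨Finset.mem_univ _, h⟩, rfl⟩)
    · simp only [Finset.mem_filter, Finset.mem_univ, true_and] at h
      exact h.elim
  have h1 := (le_trans (Finset.card_le_card hsub) (Finset.card_union_le _ _))
  have h2 : ((Finset.univ.filter (fun v => G.Adj a v)).image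
    (fun v : V => (some (Sum.inl v) : Option (V ⊕ V)))).card ≤ _ := Finset.card_image_le
  rw [Finset.card_singleton] at h1
  have h4 := h1.trans (Nat.add_le_add_right h2 1)
  convert h4

/-- `a` and `b` are at distance at least three. -/
def Far (a b : V) : Prop := a ≠ b ∧ ¬ G.Adj a b ∧ ∀ c, G.Adj a c → ¬ G.Adj b c

open Classical in
theorem card_far {Δ : ℕ} (hΔ : ∀ a, dg G a ≤ Δ) (a : V) :
    Fintype.card V - (Δ ^ 2 + 1) ≤ (Finset.univ.filter (fun b => Far G a b)).card := by
  have hbad : (Finset.univ.filter (fun b => ¬ Far G a b)).card ≤ Δ ^ 2 + 1 := by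
    have hsub : Finset.univ.filter (fun b => ¬ Far G a b) ⊆
        insert a ((Finset.univ.filter (fun v => G.Adj a v)) ∪
          (Finset.univ.filter (fun v => G.Adj a v)).biUnion
            (fun c => (Finset.univ.filter (fun v => G.Adj c v)).erase a)) := by
      intro b hb
      simp only [Finset.mem_filter, Finset.mem_univ, true_and] at hb
      unfold Far at hb
      by_cases h1 : a = b
      · simp [h1]
      by_cases h2 : G.Adj a b
      · simp [h2]
      have h3 : ∃ c, G.Adj a c ∧ G.Adj b c := by
        by_contra hn
        push Not at hn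
        exact hb ⟨h1, h2, fun c h => hn c h⟩
      obtain ⟨c, hac, hbc⟩ := h3
      simp only [Finset.mem_insert, Finset.mem_union, Finset.mem_biUnion, Finset.mem_filter,
        Finset.mem_univ, true_and, Finset.mem_erase]
      exact Or.inr (Or.inr ⟨c, hac, fun h => h1 h.symm, hbc.symm⟩)
    have hd : (Finset.univ.filter (fun v => G.Adj a v)).card ≤ Δ := hΔ a
    have hb : ((Finset.univ.filter (fun v => G.Adj a v)).biUnion
            (fun c => (Finset.univ.filter (fun v => G.Adj c v)).erase a)).card
        ≤ (Finset.univ.filter (fun v => G.Adj a v)).card * (Δ - 1) := by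
      refine Finset.card_biUnion_le_card_mul _ _ _ ?_
      intro c hc
      have hc' : G.Adj a c := by simpa using hc
      rw [Finset.card_erase_of_mem (by simpa using hc'.symm)]
      have : (Finset.univ.filter (fun v => G.Adj c v)).card ≤ Δ := hΔ c
      omega
    have h1 := Finset.card_le_card hsub
    have h2 := Finset.card_insert_le a ((Finset.univ.filter (fun v => G.Adj a v)) ∪
          (Finset.univ.filter (fun v => G.Adj a v)).biUnion
            (fun c => (Finset.univ.filter (fun v => G.Adj c v)).erase a))
    have h3 := Finset.card_union_le (Finset.univ.filter (fun v => G.Adj a v))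
      ((Finset.univ.filter (fun v => G.Adj a v)).biUnion
            (fun c => (Finset.univ.filter (fun v => G.Adj c v)).erase a))
    have h4 : (Finset.univ.filter (fun v => G.Adj a v)).card * (Δ - 1) ≤ Δ * (Δ - 1) :=
      Nat.mul_le_mul_right _ hd
    have h5 : Δ + Δ * (Δ - 1) = Δ ^ 2 := by
      cases Δ with
      | zero => rfl
      | succ k =>
        rw [Nat.add_sub_cancel]
        ring
    omega
  have htot := Finset.card_filter_add_card_filter_not (s := (Finset.univ : Finset V))
    (fun b => Far G a b)
  rw [Finset.card_univ] at htot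
  omega

/-- Choice of the pairs to be merged. -/
theorem exists_merge {Δ : ℕ} (hΔ : ∀ a, dg G a ≤ Δ) :
    ∃ j, j = Fintype.card V - (Δ ^ 2 + 1) ∧ ∃ ν τ : Fin j → V, Function.Injective ν ∧
      Function.Injective τ ∧ ∀ i, Far G (ν i) (τ i) := by
  classical
  obtain ⟨j, hj⟩ : ∃ j, j = Fintype.card V - (Δ ^ 2 + 1) := ⟨_, rfl⟩
  refine ⟨j, hj, ?_⟩
  let ν : Fin j → V := fun i => (Fintype.equivFin V).symm (Fin.castLE (by omega) i)
  have hν : Function.Injective ν := by
    intro i i' h
    have := (Fintype.equivFin V).symm.injective h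
    exact Fin.castLE_injective _ this
  have hall : ∀ s : Finset (Fin j),
      s.card ≤ (s.biUnion (fun i => Finset.univ.filter (fun b => Far G (ν i) b))).card := by
    intro s
    rcases s.eq_empty_or_nonempty with rfl | ⟨i, hi⟩
    · simp
    · have h1 : s.card ≤ j := by
        have := Finset.card_le_univ s
        simpa using this
      have h2 := card_far G hΔ (ν i)
      rw [← hj] at h2
      refine (h1.trans h2).trans (Finset.card_le_card ?_)
      exact Finset.subset_biUnion_of_mem (fun i => Finset.univ.filter (fun b => Far G (ν i) b)) hi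
  obtain ⟨τ, hτ, hmem⟩ := (Finset.all_card_le_biUnion_card_iff_exists_injective _).1 hall
  refine ⟨ν, τ, hν, hτ, fun i => ?_⟩
  have := hmem i
  simpa using this

/-- The main case: `Δ ≥ 3`. -/
theorem lab_three {Δ : ℕ} (hΔ : ∀ a, dg G a ≤ Δ) (h3 : 3 ≤ Δ) (hn : Δ + 1 ≤ Fintype.card V) :
    ∃ f, Lab (myc G) f (Fintype.card V + 1 + Δ ^ 2) := by
  classical
  obtain ⟨j, hj, ν, τ, hν, hτ, hfar⟩ := exists_merge G hΔ
  obtain ⟨n, hndef⟩ : ∃ n, n = Fintype.card V := ⟨_, rfl⟩
  obtain ⟨r, hr⟩ : ∃ r, r = (Δ ^ 2 + 1) - n := ⟨_, rfl⟩
  rw [← hndef] at hj hn ⊢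
  -- the partner
  obtain ⟨σ, hσ1, hσ2⟩ : ∃ σ : V → Option V, (∀ i, σ (τ i) = some (ν i)) ∧
      (∀ v, (∀ i, τ i ≠ v) → σ v = none) := by
    refine ⟨fun v => if h : ∃ i, τ i = v then some (ν h.choose) else none, ?_, ?_⟩
    · intro i
      have h : ∃ i', τ i' = τ i := ⟨i, rfl⟩
      have h' : h.choose = i := hτ h.choose_spec
      simp only [h, dif_pos]
      rw [h']
    · intro v hv
      have h : ¬ ∃ i, τ i = v := by
        push Not
        exact hv
      simp only [h, dif_neg, not_false_iff]
  have hσsome : ∀ v a, σ v = some a → ∃ i, τ i = v ∧ ν i = a := by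
    intro v a h
    by_cases hex : ∃ i, τ i = v
    · obtain ⟨i, rfl⟩ := hex
      rw [hσ1] at h
      exact ⟨i, rfl, Option.some_injective _ h⟩
    · push Not at hex
      rw [hσ2 v hex] at h
      exact absurd h (by simp)
  have hσfar : ∀ v a, σ v = some a → Far G a v := by
    intro v a h
    obtain ⟨i, rfl, rfl⟩ := hσsome v a h
    exact hfar i
  have hσinj : ∀ v v' a, σ v = some a → σ v' = some a → v = v' := by
    intro v v' a h h'
    obtain ⟨i, rfl, rfl⟩ := hσsome v a h
    obtain ⟨i', rfl, h2⟩ := hσsome v' _ h'
    rw [hν h2]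
  have hσcard : Fintype.card {v : V // σ v = none} = n - j := by
    have h1 : Fintype.card {v : V // σ v = none} = (Finset.univ.image τ)ᶜ.card := by
      rw [Fintype.card_subtype]
      congr 1
      ext v
      simp only [Finset.mem_filter, Finset.mem_univ, true_and, Finset.mem_compl,
        Finset.mem_image, not_exists]
      constructor
      · rintro h i rfl
        rw [hσ1] at h
        exact absurd h (by simp)
      · exact hσ2 v
    rw [h1, Finset.card_compl, Finset.card_image_of_injective _ hτ]
    simp [hndef]
  -- the classes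
  have hX : Fintype.card (Option (V ⊕ {v : V // σ v = none}) ⊕ Fin r) = n + Δ ^ 2 + 2 := by
    simp only [Fintype.card_sum, Fintype.card_option, hσcard, Fintype.card_fin, ← hndef]
    omega
  let cl : Option (V ⊕ V) → Option (V ⊕ {v : V // σ v = none}) ⊕ Fin r := fun x => match x with
    | none => Sum.inl none
    | some (Sum.inl a) => Sum.inl (some (Sum.inl a))
    | some (Sum.inr a) => if h : σ a = none then Sum.inl (some (Sum.inr ⟨a, h⟩))
        else Sum.inl (some (Sum.inl ((σ a).getD a)))
  have cl1 : ∀ a b, σ a = some b → cl (some (Sum.inr a)) = Sum.inl (some (Sum.inl b)) := by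
    intro a b h
    have h' : σ a ≠ none := by rw [h]; simp
    show (if h : σ a = none then _ else _) = _
    rw [dif_neg h', h]
    rfl
  have cl2 : ∀ a (h : σ a = none), cl (some (Sum.inr a)) = Sum.inl (some (Sum.inr ⟨a, h⟩)) := by
    intro a h
    show (if h : σ a = none then _ else _) = _
    rw [dif_pos h]
  -- vertices in the same class
  have hcl : ∀ u v, cl u = cl v → u = v ∨ ∃ a b, Far G a b ∧
      ((u = some (Sum.inl a) ∧ v = some (Sum.inr b)) ∨
        (u = some (Sum.inr b) ∧ v = some (Sum.inl a))) := by
    rintro (_ | a | a) (_ | b | b) h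
    · exact Or.inl rfl
    · exact absurd h (by simp [cl])
    · rcases hb : σ b with _ | c
      · rw [cl2 b hb] at h
        exact absurd h (by simp [cl])
      · rw [cl1 b c hb] at h
        exact absurd h (by simp [cl])
    · exact absurd h (by simp [cl])
    · left
      have : a = b := by simpa [cl] using h
      rw [this]
    · rcases hb : σ b with _ | c
      · rw [cl2 b hb] at h
        exact absurd h (by simp [cl])
      · rw [cl1 b c hb] at h
        have : a = c := by simpa [cl] using h
        subst this
        exact Or.inr ⟨a, b, hσfar b a hb, Or.inl ⟨rfl, rfl⟩⟩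
    · rcases ha : σ a with _ | c
      · rw [cl2 a ha] at h
        exact absurd h (by simp [cl])
      · rw [cl1 a c ha] at h
        exact absurd h (by simp [cl])
    · rcases ha : σ a with _ | c
      · rw [cl2 a ha] at h
        exact absurd h (by simp [cl])
      · rw [cl1 a c ha] at h
        have : c = b := by simpa [cl] using h
        subst this
        exact Or.inr ⟨c, a, hσfar a c ha, Or.inr ⟨rfl, rfl⟩⟩
    · left
      rcases ha : σ a with _ | c
      · rcases hb : σ b with _ | d
        · rw [cl2 a ha, cl2 b hb] at h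
          have : a = b := by simpa using h
          rw [this]
        · rw [cl2 a ha, cl1 b d hb] at h
          exact absurd h (by simp)
      · rcases hb : σ b with _ | d
        · rw [cl1 a c ha, cl2 b hb] at h
          exact absurd h (by simp)
        · rw [cl1 a c ha, cl1 b d hb] at h
          have : c = d := by simpa using h
          subst this
          rw [hσinj a b c ha hb]
  -- the bound on the degrees
  let K : ℕ := 2 * Δ + (if j = 0 then 0 else Δ + 1)
  let D : Option (V ⊕ {v : V // σ v = none}) ⊕ Fin r → ℕ := fun x => match x with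
    | Sum.inl none => n
    | Sum.inl (some (Sum.inl _)) => K
    | Sum.inl (some (Sum.inr _)) => Δ + 1
    | Sum.inr _ => 0
  have hK1 : Δ + 1 ≤ K := by
    simp only [K]
    split_ifs <;> omega
  have hDK : ∀ a, D (cl (some a)) ≤ K := by
    rintro (a | a)
    · exact le_refl _
    · rcases ha : σ a with _ | c
      · rw [cl2 a ha]
        exact hK1
      · rw [cl1 a c ha]
  have hDn : D (cl none) = n := rfl
  have hΔ2 : 3 * Δ ≤ Δ ^ 2 := by nlinarith
  have hnK : n + K + 1 ≤ n + Δ ^ 2 + 2 := by
    simp only [K]
    split_ifs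
    · omega
    · omega
  have hKK : K + K + 1 ≤ n + Δ ^ 2 + 2 := by
    simp only [K]
    split_ifs with h0
    · nlinarith
    · have : Δ ^ 2 + 2 ≤ n := by omega
      nlinarith
  suffices hL : ∃ f, Lab (myc G) f
      (Fintype.card (Option (V ⊕ {v : V // σ v = none}) ⊕ Fin r) - 1) by
    obtain ⟨f, hf⟩ := hL
    refine ⟨f, hf.mono ?_⟩
    rw [hX]
    omega
  refine class_lab (myc G) cl ?_ ?_ D ?_ ?_
  · intro u v huv hc
    rcases hcl u v hc with rfl | ⟨a, b, hab, ⟨rfl, rfl⟩ | ⟨rfl, rfl⟩⟩
    · exact (myc G).irrefl huv
    · exact hab.2.1 huv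
    · exact hab.2.1 (SimpleGraph.Adj.symm huv)
  · intro u v c huv huc hvc hc
    rcases hcl u v hc with h | ⟨a, b, hab, ⟨rfl, rfl⟩ | ⟨rfl, rfl⟩⟩
    · exact huv h
    · rcases c with _ | c | c
      · exact huc.elim
      · exact hab.2.2 c huc hvc
      · exact hvc.elim
    · rcases c with _ | c | c
      · exact hvc.elim
      · exact hab.2.2 c hvc huc
      · exact huc.elim
  · rintro ((_ | a | ⟨a, ha⟩) | i)
    · refine ⟨{none}, ?_, ?_⟩
      · rintro (_ | b | b) h
        · simp
        · exact absurd h (by simp [cl])
        · rcases hb : σ b with _ | c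
          · rw [cl2 b hb] at h
            exact absurd h (by simp)
          · rw [cl1 b c hb] at h
            exact absurd h (by simp)
      · rw [Finset.sum_singleton]
        show dg (myc G) none ≤ n
        rw [hndef]
        exact dg_none G
    · refine ⟨insert (some (Sum.inl a)) ((Finset.univ.filter (fun v => σ v = some a)).image
        (fun v => some (Sum.inr v))), ?_, ?_⟩
      · rintro (_ | b | b) h
        · exact absurd h (by simp [cl])
        · have : b = a := by simpa [cl] using h
          simp [this]
        · rcases hb : σ b with _ | c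
          · rw [cl2 b hb] at h
            exact absurd h (by simp)
          · rw [cl1 b c hb] at h
            have : c = a := by simpa using h
            subst this
            simp [hb]
      · have hni : (some (Sum.inl a) : Option (V ⊕ V)) ∉
            ((Finset.univ.filter (fun v => σ v = some a)).image (fun v => some (Sum.inr v))) := by
          simp
        rw [Finset.sum_insert hni]
        have h1 : dg (myc G) (some (Sum.inl a)) ≤ 2 * Δ := by
          have := dg_inl G a
          have := hΔ a
          omega
        have hcard1 : (Finset.univ.filter (fun v => σ v = some a)).card ≤ 1 := by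
          rw [Finset.card_le_one]
          intro x hx y hy
          exact hσinj x y a (by simpa using hx) (by simpa using hy)
        have h2 : ∑ u ∈ (Finset.univ.filter (fun v => σ v = some a)).image
            (fun v => (some (Sum.inr v) : Option (V ⊕ V))), dg (myc G) u
            ≤ (if j = 0 then 0 else Δ + 1) := by
          rw [Finset.sum_image (by
            intro x _ y _ hxy
            simpa using hxy)]
          by_cases hj0 : j = 0
          · have hemp : Finset.univ.filter (fun v => σ v = some a) = ∅ := by
              rw [Finset.filter_eq_empty_iff]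
              intro v _ hv
              obtain ⟨i, _⟩ := hσsome v a hv
              have := i.2
              omega
            rw [hemp]
            simp
          · rw [if_neg hj0]
            refine (Finset.sum_le_card_nsmul _ _ (Δ + 1) ?_).trans ?_
            · intro v _
              have := dg_inr G v
              have := hΔ v
              omega
            · rw [smul_eq_mul]
              calc _ ≤ 1 * (Δ + 1) := Nat.mul_le_mul_right _ hcard1
                _ = Δ + 1 := one_mul _
        exact Nat.add_le_add h1 h2
    · refine ⟨{some (Sum.inr a)}, ?_, ?_⟩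
      · rintro (_ | b | b) h
        · exact absurd h (by simp [cl])
        · exact absurd h (by simp [cl])
        · rcases hb : σ b with _ | c
          · rw [cl2 b hb] at h
            have : b = a := by simpa using h
            simp [this]
          · rw [cl1 b c hb] at h
            exact absurd h (by simp)
      · rw [Finset.sum_singleton]
        have := dg_inr G a
        have := hΔ a
        show _ ≤ Δ + 1
        omega
    · refine ⟨∅, ?_, by simp⟩
      rintro (_ | b | b) h
      · exact absurd h (by simp [cl])
      · exact absurd h (by simp [cl])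
      · rcases hb : σ b with _ | c
        · rw [cl2 b hb] at h
          exact absurd h (by simp)
        · rw [cl1 b c hb] at h
          exact absurd h (by simp)
  · rw [hX]
    rintro (_ | u) (_ | v) huv
    · exact huv.elim
    · have := hDK v
      rw [hDn]
      omega
    · have := hDK u
      rw [hDn]
      omega
    · have := hDK u
      have := hDK v
      omega

/-- The case `Δ ≤ 1`. -/
theorem lab_one {Δ : ℕ} (hdeg : ∀ a x y, G.Adj a x → G.Adj a y → x = y)
    (hΔ : ∀ a b, G.Adj a b → 1 ≤ Δ) :
    ∃ f, Lab (myc G) f (Fintype.card V + 1 + Δ ^ 2) := by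
  classical
  obtain ⟨n, hn⟩ : ∃ n, n = Fintype.card V := ⟨_, rfl⟩
  let e : V ≃ Fin (Fintype.card V) := Fintype.equivFin V
  have hlt : ∀ a, (e a : ℕ) < n := fun a => by rw [hn]; exact (e a).2
  have hinj : ∀ a b, a ≠ b → (e a : ℕ) ≠ e b := by
    intro a b hab hc
    exact hab (e.injective (Fin.ext hc))
  rw [← hn]
  let P : V → Prop := fun a => ∃ b, G.Adj a b ∧ (e b : ℕ) < e a
  let f : Option (V ⊕ V) → ℕ := fun x => match x with
    | none => 0
    | some (Sum.inl a) => if P a then n + 2 else 1
    | some (Sum.inr a) => 2 + e a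
  have f1 : ∀ a b, G.Adj a b → (e b : ℕ) < e a → f (some (Sum.inl a)) = n + 2 := by
    intro a b hab hlt
    have : P a := ⟨b, hab, hlt⟩
    exact if_pos this
  have f2 : ∀ a b, G.Adj a b → (e a : ℕ) < e b → f (some (Sum.inl a)) = 1 := by
    intro a b hab hlt
    have : ¬ P a := by
      rintro ⟨c, hc, hcl⟩
      have := hdeg a b c hab hc
      subst this
      omega
    exact if_neg this
  have f3 : ∀ a, f (some (Sum.inl a)) = n + 2 ∨ f (some (Sum.inl a)) = 1 := by
    intro a
    by_cases h : P a
    · left
      exact if_pos h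
    · right
      exact if_neg h
  have f4 : ∀ a, f (some (Sum.inr a)) = 2 + e a := fun a => rfl
  have f5 : f none = 0 := rfl
  have key1 : ∀ a b, G.Adj a b → f (some (Sum.inl a)) + 2 ≤ f (some (Sum.inl b)) ∨
      f (some (Sum.inl b)) + 2 ≤ f (some (Sum.inl a)) := by
    intro a b hab
    have h0 := hinj a b hab.ne
    have h1 := hlt a
    rcases Nat.lt_or_ge (e a) (e b) with h | h
    · rw [f2 a b hab h, f1 b a hab.symm h]
      omega
    · have h' : (e b : ℕ) < e a := by omega
      rw [f1 a b hab h', f2 b a hab.symm h']
      omega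
  have key2 : ∀ a b, G.Adj a b → f (some (Sum.inl a)) + 2 ≤ f (some (Sum.inr b)) ∨
      f (some (Sum.inr b)) + 2 ≤ f (some (Sum.inl a)) := by
    intro a b hab
    have h0 := hinj a b hab.ne
    have h1 := hlt a
    rw [f4]
    rcases Nat.lt_or_ge (e a) (e b) with h | h
    · rw [f2 a b hab h]
      omega
    · have h' : (e b : ℕ) < e a := by omega
      rw [f1 a b hab h']
      omega
  refine ⟨f, ?_, ?_, ?_⟩
  · rintro (_ | a | a) (_ | b | b) hab
    · exact hab.elim
    · exact hab.elim
    · rw [f5, f4]
      omega
    · exact hab.elim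
    · exact key1 a b hab
    · exact key2 a b hab
    · rw [f5, f4]
      omega
    · exact (key2 b a (SimpleGraph.Adj.symm hab)).symm
    · exact hab.elim
  · rintro (_ | a | a) (_ | b | b) c huv hac hbc
    · exact (huv rfl).elim
    · have := f3 b
      rw [f5]
      omega
    · rw [f5, f4]
      omega
    · have := f3 a
      rw [f5]
      omega
    · exfalso
      have : a = b := by
        rcases c with _ | c | c
        · exact hac.elim
        · exact hdeg c a b (SimpleGraph.Adj.symm hac) (SimpleGraph.Adj.symm hbc)
        · exact hdeg c a b (SimpleGraph.Adj.symm hac) (SimpleGraph.Adj.symm hbc)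
      exact huv (by rw [this])
    · have h3 := f3 a
      have h4 := hlt b
      rw [f4]
      omega
    · rw [f5, f4]
      omega
    · have h3 := f3 b
      have h4 := hlt a
      rw [f4]
      omega
    · have hab : a ≠ b := by
        rintro rfl
        exact huv rfl
      have := hinj a b hab
      rw [f4, f4]
      omega
  · rintro (_ | a | a)
    · rw [f5]
      omega
    · by_cases h : P a
      · have h1 : f (some (Sum.inl a)) = n + 2 := if_pos h
        obtain ⟨b, hb, _⟩ := h
        have h2 := hΔ a b hb
        have h3 : 1 ≤ Δ ^ 2 := Nat.one_le_pow _ _ h2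
        omega
      · have h1 : f (some (Sum.inl a)) = 1 := if_neg h
        omega
    · have := hlt a
      rw [f4]
      omega

/-- **The first Mycielski graph.** -/
theorem lab_myc {Δ : ℕ} (hΔ : ∀ a, dg G a ≤ Δ) (hn : Δ + 1 ≤ Fintype.card V) :
    ∃ f, Lab (myc G) f (Fintype.card V + 1 + Δ ^ 2) := by
  classical
  have hmem : ∀ a b, G.Adj a b → b ∈ Finset.univ.filter (fun v => G.Adj a v) := by
    intro a b h
    simpa using h
  rcases Nat.lt_or_ge Δ 2 with h1 | h1
  · refine lab_one G ?_ ?_
    · intro a x y hx hy
      have h2 : (Finset.univ.filter (fun v => G.Adj a v)).card ≤ 1 := (hΔ a).trans (by omega)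
      exact Finset.card_le_one.1 h2 x (hmem _ _ hx) y (hmem _ _ hy)
    · intro a b hab
      have h2 : (Finset.univ.filter (fun v => G.Adj a v)).card ≤ Δ := hΔ a
      have h3 : 0 < (Finset.univ.filter (fun v => G.Adj a v)).card :=
        Finset.card_pos.2 ⟨b, hmem _ _ hab⟩
      omega
  rcases Nat.lt_or_ge Δ 3 with h2 | h2
  · have hΔ2 : Δ = 2 := by omega
    subst hΔ2
    have hne : Nonempty V := Fintype.card_pos_iff.1 (by omega)
    obtain ⟨f, hf⟩ := exists_lab_two (G := G) (by
      intro a x y z hx hy hz hxy hxz
      by_contra hyz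
      have h3 : (Finset.univ.filter (fun v => G.Adj a v)).card ≤ 2 := hΔ a
      have h4 : ({x, y, z} : Finset V) ⊆ Finset.univ.filter (fun v => G.Adj a v) := by
        intro w hw
        simp only [Finset.mem_insert, Finset.mem_singleton] at hw
        rcases hw with rfl | rfl | rfl
        · exact hmem _ _ hx
        · exact hmem _ _ hy
        · exact hmem _ _ hz
      have h5 := Finset.card_le_card h4
      rw [Finset.card_eq_three.2 ⟨x, y, z, hxy, hxz, hyz, rfl⟩] at h5
      omega)
    obtain ⟨g, hg⟩ := hf.step
    refine ⟨g, hg.mono ?_⟩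
    rw [Nat.card_eq_fintype_card]
    omega
  · exact lab_three G hΔ h2 hn

omit [Fintype V] in
theorem iter_finite (V : Type u) [Finite V] (t : ℕ) : Finite (iterV V t) := by
  induction t with
  | zero => exact (inferInstance : Finite V)
  | succ t ih =>
    have := ih
    exact (inferInstance : Finite (Option (iterV V t ⊕ iterV V t)))

theorem iter_nonempty (V : Type u) [Nonempty V] (t : ℕ) : Nonempty (iterV V t) := by
  cases t with
  | zero => exact (inferInstance : Nonempty V)
  | succ t => exact (inferInstance : Nonempty (Option (iterV V t ⊕ iterV V t)))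

theorem iter_card (V : Type u) [Finite V] (t : ℕ) :
    Nat.card (iterV V t) + 1 = 2 ^ t * (Nat.card V + 1) := by
  induction t with
  | zero =>
    show Nat.card V + 1 = _
    ring
  | succ t ih =>
    have := iter_finite V t
    have h1 : Nat.card (iterV V (t + 1)) = Nat.card (Option (iterV V t ⊕ iterV V t)) := rfl
    rw [h1, Finite.card_option, Nat.card_sum, pow_succ]
    nlinarith

/-- **All iterated Mycielski graphs.** -/
theorem lab_iter {Δ : ℕ} (hΔ : ∀ a, dg G a ≤ Δ) (hn : Δ + 1 ≤ Fintype.card V) (t : ℕ) :
    ∃ f, Lab (iterG G (t + 1)) f ((2 ^ (t + 1) - 1) * (Fintype.card V + 1) + Δ ^ 2) := by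
  have hne : Nonempty V := Fintype.card_pos_iff.1 (by omega)
  induction t with
  | zero =>
    obtain ⟨f, hf⟩ := lab_myc G hΔ hn
    refine ⟨f, ?_⟩
    have e : (2 ^ (0 + 1) - 1) * (Fintype.card V + 1) + Δ ^ 2 = Fintype.card V + 1 + Δ ^ 2 := by
      norm_num
    rw [e]
    exact hf
  | succ t ih =>
    obtain ⟨f, hf⟩ := ih
    have := iter_finite V (t + 1)
    have := iter_nonempty V (t + 1)
    obtain ⟨g, hg⟩ := hf.step
    refine ⟨g, hg.mono (le_of_eq ?_)⟩
    have h1 := iter_card V (t + 1)
    rw [Nat.card_eq_fintype_card (α := V)] at h1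
    have h2 : 1 ≤ 2 ^ (t + 1) := Nat.one_le_two_pow
    obtain ⟨q, hq⟩ : ∃ q, 2 ^ (t + 1) = q + 1 := ⟨2 ^ (t + 1) - 1, by omega⟩
    have h3 : 2 ^ (t + 1 + 1) - 1 = 2 * q + 1 := by
      rw [pow_succ, hq]
      omega
    rw [h3, hq, Nat.add_sub_cancel]
    rw [hq] at h1
    nlinarith

end Q223.ML
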