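import Pool.Agent.H104.ML.Stm

/-!
# Project ML, job PERZ
-/

set_option autoImplicit false

namespace Pool.Agent.Q223.ML

open Pool.Agent.H104.ML Finset

theorem perz_step (m : ℕ) (L : ℝ) :
    -(1 / 2 * ((m + 1 : ℕ) : ℝ) ^ 2 * (L - Real.log ((m + 1 : ℕ) : ℝ) + 5)) ≤
      -(1 / 2 * (m : ℝ) ^ 2 * (L - Real.log m + 5)) +
        (Real.log (m.factorial : ℝ) + m * Real.log 4 - Real.log 2 - ((m : ℝ) + 1 / 2) * L) := by
  have h2 : Real.log 4 = 2 * Real.log 2 := by
    rw [show (4 : ℝ) = 2 ^ 2 by norm_num, Real.log_pow]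
    norm_num
  have h3 : 0 < Real.log 2 := Real.log_pos (by norm_num)
  have h4 : Real.log 2 < 1 := by
    have := Real.log_two_lt_d9
    linarith
  rcases Nat.eq_zero_or_pos m with rfl | hm
  · simp
    linarith
  · have hm' : (1 : ℝ) ≤ (m : ℝ) := by exact_mod_cast hm
    have hm0 : (0 : ℝ) < (m : ℝ) := by linarith
    have hst := Stirling.le_log_factorial_stirling (n := m) (by omega)
    have hpi : 0 < Real.log (2 * Real.pi) := Real.log_pos (by linarith [Real.pi_gt_three])
    have hl0 : 0 ≤ Real.log m := Real.log_nonneg hm'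
    have hl1 : Real.log m ≤ m - 1 := Real.log_le_sub_one_of_pos hm0
    have hl2 : Real.log ((m + 1 : ℕ) : ℝ) ≤ Real.log m + 1 / m := by
      have e : ((m + 1 : ℕ) : ℝ) = (m : ℝ) * (1 + 1 / m) := by
        push_cast
        field_simp
      rw [e, Real.log_mul hm0.ne' (by positivity)]
      have := Real.log_le_sub_one_of_pos (x := 1 + 1 / (m : ℝ)) (by positivity)
      linarith
    push_cast at hl2 ⊢
    have hl3 : ((m : ℝ) + 1) ^ 2 * Real.log ((m : ℝ) + 1) ≤
        ((m : ℝ) + 1) ^ 2 * (Real.log m + 1 / m) :=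
      mul_le_mul_of_nonneg_left hl2 (by positivity)
    have e1 : ((m : ℝ) + 1) ^ 2 * (Real.log m + 1 / m) =
        (m : ℝ) ^ 2 * Real.log m + (2 * m + 1) * Real.log m + m + 2 + 1 / m := by
      field_simp
      ring
    have e2 : 1 / (m : ℝ) ≤ 1 := by
      rw [div_le_one hm0]
      exact hm'
    rw [h2]
    nlinarith [mul_pos hm0 h3]

theorem t_PERZ : S_PERZ := by
  intro n μ _
  induction μ with
  | zero => simp
  | succ m ih =>
    rw [Finset.sum_range_succ]
    refine (perz_step m (Real.log n)).trans ?_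
    linarith

end Pool.Agent.Q223.ML
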